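import Pool.Agent.V7H87.KT.B
import Pool.Agent.N375.AV.Ex
import Pool.Agent.Results.MP_79b4ff_gt.KnotoidTwist

/-!
# The bracket polynomial of knotoids all of whose twist numbers are values of additive functions

Let `arcs` be a template of a knotoid diagram with `k` boxes, not all nugatory, and `K(n)`, `n ∈ ℤ^k`, the diagram with
`|n e|` crossings in the box `e`. For each box let `F_e` be a composition of at most `D` functions dominated by the largest
prime factor (`PD`, for instance the sum of the prime factors with or without multiplicity, the largest prime factor,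
Kempner's function), and `G_e` a function with steps at least a positive constant and growth at most `v ^ (d_e)`. We show
that for all `m ∈ ∏ [1, N_e]` but a proportion `K exp(- c (log M)^(1/(D+1)))`, `M` the smallest side of the box, EVERY
`K(n)` with `|n e|` near `G_e(F_e(m_e))` for all `e` (in windows which are powers of the values) has a normalised bracket
polynomial which is not supported in a short interval; in particular it is not `1`.

The values of these functions are in general small and have very large multiplicities, and so this does not follow from a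
bound for the number of the bad `n`. The proof uses the structure of the bad vectors in the starting theorem
`KnotoidTwist`: they satisfy a relation `|n(S₁) - n(S₂)| ≤ 4 k + s + 1` with two different sets of boxes. In the box of
the relation with the largest value the function takes a value in a short interval given by the other boxes, and this is
rare, uniformly in the interval, by the tool `Pool.Agent.N375.AV.windows_unif`. There is no loss in the number of boxes.

Definitions: see `KnotoidTwist` and `Pool.Agent.N375.AV`. `comp [f_1, …, f_j] = f_1 ∘ ⋯ ∘ f_j`.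
-/

set_option autoImplicit false

namespace Pool.Agent.Results.MP_79b4ff_gt.AdditiveTwistsH87

open Pool.Agent.H891R2.Jones Pool.Agent.H891R2.MT Pool.Agent.H832R3.TW
open Finset
open Pool.Agent.N733.TG (Expanding expanding_pow)
open Pool.Agent.N375.AV (PD comp pd_additive pd_largest pd_kempner)
open Pool.Agent.V7H87.KT (relations)

/-- A relation between two different sets of boxes gives a relation with coefficients `0`, `1` and `-1` between the
values. -/
lemma relation_values {k : ℕ} (n : Fin k → ℤ) (g : Fin k → ℝ) {κ b : ℝ} (hκ : 0 ≤ κ) (s : ℕ)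
    (hn : ∀ e, |((n e).natAbs : ℝ) - g e| ≤ b * (1 + |g e|) ^ κ) (hs : ∀ e, (s : ℝ) ≤ b * (1 + |g e|) ^ κ)
    (S₁ S₂ : Finset (Fin k)) (hne : S₁ ≠ S₂) (hS : |∑ e ∈ S₁, n e - ∑ e ∈ S₂, n e| ≤ 4 * k + s + 1) :
    ∃ u ∈ (Fintype.piFinset fun _ : Fin k => ({-1, 0, 1} : Finset ℝ)), ∃ e₀, u e₀ ≠ 0 ∧
      |∑ e, u e * g e| ≤ (4 * k + 1 + (k + 1) * |b|) * (1 + |g e₀|) ^ κ := by
  classical
  obtain ⟨c, hc⟩ : ∃ c : Fin k → ℝ, c = fun e => (if e ∈ S₁ then (1 : ℝ) else 0) - (if e ∈ S₂ then 1 else 0) := ⟨_, rfl⟩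
  obtain ⟨u, hu⟩ : ∃ u : Fin k → ℝ, u = fun e => c e * (if 0 ≤ n e then 1 else -1) := ⟨_, rfl⟩
  have hsum : ∑ e, u e * ((n e).natAbs : ℝ) = ((∑ e ∈ S₁, n e - ∑ e ∈ S₂, n e : ℤ) : ℝ) := by
    have h1 : ∀ e, u e * ((n e).natAbs : ℝ) = c e * (n e : ℝ) := by
      intro e
      rw [hu]
      have h2 : ((n e).natAbs : ℝ) = |(n e : ℝ)| := by
        rw [← Int.cast_abs, Int.abs_eq_natAbs, Int.cast_natCast]
      show c e * (if 0 ≤ n e then 1 else -1) * ((n e).natAbs : ℝ) = c e * (n e : ℝ)
      rw [h2]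
      split_ifs with h
      · rw [abs_of_nonneg (by exact_mod_cast h), mul_one]
      · push Not at h
        rw [abs_of_neg (by exact_mod_cast h)]
        ring
    rw [sum_congr rfl fun e _ => h1 e, hc]
    simp only [sub_mul, ite_mul, one_mul, zero_mul, sum_sub_distrib, sum_ite_mem, univ_inter]
    push_cast
    rfl
  have hval : ∀ e, u e = -1 ∨ u e = 0 ∨ u e = 1 := by
    intro e
    rw [hu, hc]
    by_cases h1 : e ∈ S₁ <;> by_cases h2 : e ∈ S₂ <;> by_cases h3 : 0 ≤ n e <;> simp [h1, h2, h3]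
  have hu1 : ∀ e, |u e| ≤ 1 := by
    intro e
    rcases hval e with h | h | h <;> rw [h] <;> norm_num
  have hex : ∃ e, u e ≠ 0 := by
    by_contra hcon
    push Not at hcon
    apply hne
    ext e
    have h1 := hcon e
    rw [hu, hc] at h1
    by_cases h2 : e ∈ S₁ <;> by_cases h3 : e ∈ S₂ <;> by_cases h4 : 0 ≤ n e <;> simp [h2, h3, h4] at h1 ⊢
  obtain ⟨e₁, he₁⟩ := hex
  obtain ⟨e₀, he₀, hmax⟩ := (univ.filter fun e => u e ≠ 0).exists_max_image (fun e => |g e|)
    ⟨e₁, mem_filter.2 ⟨mem_univ _, he₁⟩⟩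
  rw [mem_filter] at he₀
  refine ⟨u, ?_, e₀, he₀.2, ?_⟩
  · rw [Fintype.mem_piFinset]
    intro e
    rcases hval e with h | h | h <;> rw [h] <;> simp
  obtain ⟨w, hw⟩ : ∃ w : ℝ, w = (1 + |g e₀|) ^ κ := ⟨_, rfl⟩
  have hw1 : 1 ≤ w := by
    rw [hw]
    exact Real.one_le_rpow (by linarith [abs_nonneg (g e₀)]) hκ
  have hterm : ∀ e, |u e * (g e - ((n e).natAbs : ℝ))| ≤ |b| * w := by
    intro e
    by_cases h : u e = 0
    · rw [h, zero_mul, abs_zero]
      positivity
    · have h1 : |g e| ≤ |g e₀| := hmax e (mem_filter.2 ⟨mem_univ _, h⟩)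
      have h2 : (1 + |g e|) ^ κ ≤ w := by
        rw [hw]
        exact Real.rpow_le_rpow (by positivity) (by linarith) hκ
      rw [abs_mul, abs_sub_comm]
      calc |u e| * |((n e).natAbs : ℝ) - g e| ≤ 1 * |((n e).natAbs : ℝ) - g e| :=
            mul_le_mul_of_nonneg_right (hu1 e) (abs_nonneg _)
        _ ≤ b * (1 + |g e|) ^ κ := by rw [one_mul]; exact hn e
        _ ≤ |b| * (1 + |g e|) ^ κ := mul_le_mul_of_nonneg_right (le_abs_self b) (by positivity)
        _ ≤ |b| * w := mul_le_mul_of_nonneg_left h2 (abs_nonneg b)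
  have hsw : (s : ℝ) ≤ |b| * w := by
    rw [hw]
    exact (hs e₀).trans (mul_le_mul_of_nonneg_right (le_abs_self b) (by positivity))
  have h3 : |∑ e, u e * ((n e).natAbs : ℝ)| ≤ 4 * k + s + 1 := by
    rw [hsum]
    rw [← Int.cast_abs]
    exact_mod_cast hS
  have h4 : |∑ e, u e * (g e - ((n e).natAbs : ℝ))| ≤ k * (|b| * w) := by
    refine (abs_sum_le_sum_abs _ _).trans ((sum_le_sum fun e _ => hterm e).trans (le_of_eq ?_))
    rw [sum_const, card_univ, Fintype.card_fin, nsmul_eq_mul]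
  have h5 : ∑ e, u e * g e = ∑ e, u e * ((n e).natAbs : ℝ) + ∑ e, u e * (g e - ((n e).natAbs : ℝ)) := by
    rw [← sum_add_distrib]
    apply sum_congr rfl
    intro e _
    ring
  rw [h5, ← hw]
  refine (abs_add_le _ _).trans ((add_le_add h3 h4).trans ?_)
  have hk : (0 : ℝ) ≤ k := Nat.cast_nonneg k
  nlinarith

/-- **Twist numbers near values of functions dominated by the largest prime factor.** Let `arcs` be a template with `k`
boxes, not all nugatory. For `e < k` let `F_e = comp (fs e)` be a composition of at most `D` functions with `PD` and `G_e`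
expanding of order `d_e`, `κ ≥ 0` and `d_e κ < 1` for all `e`. There are `c > 0` and `K` such that for all `N_e ≥ M ≥ 1`, for
all `m ∈ ∏ [1, N_e]` but `K (∏ N_e) exp(- c (log M) ^ (1 / (D + 1)))`, with `g_e = G_e(F_e(m_e))`: for ALL integral vectors
`n` with `||n e| - g_e| ≤ b (1 + |g_e|) ^ κ` for all `e` the normalised bracket polynomial of every knotoid diagram on the
twisted arcs of `n` is not supported in an interval of length `4 s`, for any natural number `s` with
`s ≤ b (1 + |g_e|) ^ κ` for all `e`. Examples of `PD` (additive functions, the largest prime factor, Kempner's function)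
and of expanding functions. -/
theorem result :
    (∀ (k : ℕ) (arcs : List (Corner k × Corner k)), ¬ Nugatory arcs →
      ∀ (D : ℕ) (fs : Fin k → List (ℕ → ℕ)), (∀ e, ∀ f ∈ fs e, PD f) → (∀ e, (fs e).length ≤ D) →
      ∀ (G : Fin k → ℕ → ℝ) (d : Fin k → ℝ), (∀ e, Expanding (G e) (d e)) →
      ∀ κ : ℝ, 0 ≤ κ → (∀ e, d e * κ < 1) → ∀ b : ℝ,
      ∃ c K : ℝ, 0 < c ∧ ∀ (M : ℕ) (N : Fin k → ℕ), 1 ≤ M → (∀ e, M ≤ N e) →
        ({m : Fin k → ℕ | (∀ e, 1 ≤ m e ∧ m e ≤ N e) ∧ ¬ ∀ n : Fin k → ℤ,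
          (∀ e, |((n e).natAbs : ℝ) - G e (comp (fs e) (m e))| ≤ b * (1 + |G e (comp (fs e) (m e))|) ^ κ) →
            ∀ Δ : Diagram (Ribbon.Pt n), Orients Δ (twisted arcs n) → IsKnotoid Δ →
              ∀ s : ℕ, (∀ e, (s : ℝ) ≤ b * (1 + |G e (comp (fs e) (m e))|) ^ κ) → ¬ FSpanLE s Δ}.ncard : ℝ) ≤
          K * (∏ e, (N e : ℝ)) * Real.exp (-(c * Real.log M ^ ((1 : ℝ) / (D + 1))))) ∧
    (∀ f : ℕ → ℕ, (∀ a b : ℕ, Nat.Coprime a b → f (a * b) = f a + f b) →
      (∃ C : ℕ, ∀ q j : ℕ, q.Prime → 1 ≤ j → f (q ^ j) ≤ C * q ^ j) →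
      (∃ P : ℕ, ∀ p q : ℕ, p.Prime → q.Prime → P ≤ p → P ≤ q → f p = f q → p = q) → PD f) ∧
    (PD (fun n => n.primeFactors.sup id) ∧ PD (fun n => sInf {k : ℕ | n ∣ k.factorial})) ∧
    ∀ a d : ℝ, 0 < a → 1 ≤ d → Expanding (fun v => a * (v : ℝ) ^ d) d := by
  refine ⟨fun k arcs hN D fs hfs hD G d hG κ hκ h1 b => ?_, fun f a1 a2 a3 => pd_additive a1 a2 a3,
    ⟨pd_largest, pd_kempner⟩, fun a d ha hd => expanding_pow ha hd⟩
  obtain ⟨c, K, hc, hK0, hK⟩ := relations D fs hfs hD G d hG hκ h1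
    (Fintype.piFinset fun _ : Fin k => ({-1, 0, 1} : Finset ℝ)) (4 * k + 1 + (k + 1) * |b|)
  refine ⟨c, K, hc, fun M N hM hMN => le_trans ?_ (hK M N hM hMN)⟩
  apply Nat.cast_le.2
  apply Set.ncard_le_ncard
  · rintro m ⟨h2, h3⟩
    refine ⟨h2, ?_⟩
    push Not at h3
    obtain ⟨n, hn, Δ, h4, h5, s, hs, h6⟩ := h3
    obtain ⟨S₁, S₂, hne, hS⟩ := (Pool.Agent.Results.MP_79b4ff_gt.KnotoidTwist.result k arcs hN s).1 n Δ h4 h5 h6
    exact relation_values n (fun e => G e (comp (fs e) (m e))) hκ s hn hs S₁ S₂ hne hS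
  · apply ((Fintype.piFinset fun e => Icc 1 (N e)).finite_toSet).subset
    rintro m ⟨h2, _⟩
    rw [mem_coe, Fintype.mem_piFinset]
    exact fun e => mem_Icc.2 (h2 e)

end Pool.Agent.Results.MP_79b4ff_gt.AdditiveTwistsH87
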