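import Pool.Agent.V7H10.KN
import Pool.Agent.V7H10.TB2

/-!
# The span of the bracket polynomial of knotoids whose twist numbers are values of multiplicative functions

Let `arcs` be a template of a knotoid diagram with `k` boxes, not all nugatory, and `K(n)`, `n ∈ ℤ^k`, the diagram with
`|n e|` crossings in the box `e`. Let `f_e`, `e < k`, be multiplicative functions such as Euler's function or the sum of the
divisors, `a_e > 0` and `σ + κ k < 1`. We show that for all but `N ^ k / (log N) ^ U` of the `m ∈ [1, N] ^ k`, for ALL `n`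
with `||n e| - a_e f_e(m_e)| ≤ N ^ κ` for all `e` (all signs are allowed), the span of the normalised bracket polynomial of
`K(n)` is larger than `4 N ^ σ - 4`, and the polynomial is not `1`.

The values of such functions are a set of density zero, taken in general with very large multiplicities, and so this does not
follow from the number of the exceptional `n` in the starting theorem `KnotoidTwist`, which is the input. The tool on the
multiplicative functions is `Pool.Agent.N733.TG` (helper733).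

Definitions: see `KnotoidTwist`.
-/

set_option autoImplicit false

namespace Pool.Agent.Results.MP_79b4ff_gt.MultiplicativeTwistsH10

open Pool.Agent.H891R2.Jones Pool.Agent.H891R2.MT Pool.Agent.H832R3.TW
open Pool.Agent.N733.TG (LM lm_totient lm_sigma)

/-- **Twist numbers near values of multiplicative functions.** Let `arcs` be a template with `k` boxes, not all nugatory,
and `σ, κ ≥ 0` with `σ + κ k < 1`. For all multiplicative `f_e` with `LM` and real `a_e > 0` and all `U`, for all large `N`,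
for all but `N ^ k / (log N) ^ U` of the `m ∈ [1, N] ^ k`: for ALL integral vectors `n` with
`||n e| - a_e f_e(m_e)| ≤ N ^ κ` for all `e`, the normalised bracket polynomial of every knotoid diagram on the twisted arcs
of `n` is not supported in an interval of length `4 s`, for any `s ≤ N ^ σ`. Euler's function and the sum of the divisors
have `LM`. -/
theorem result :
    (∀ (k : ℕ) (arcs : List (Corner k × Corner k)), ¬ Nugatory arcs → ∀ σ κ : ℝ, 0 ≤ σ → 0 ≤ κ → σ + κ * k < 1 →
      ∀ f : Fin k → ℕ → ℕ, (∀ e, LM (f e)) → ∀ a : Fin k → ℝ, (∀ e, 0 < a e) → ∀ U : ℕ, ∃ N₀ : ℕ, ∀ N : ℕ, N₀ ≤ N →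
        ({m : Fin k → ℕ | (∀ e, 1 ≤ m e ∧ m e ≤ N) ∧
          ¬ ∀ n : Fin k → ℤ, (∀ e, |((n e).natAbs : ℝ) - a e * f e (m e)| ≤ (N : ℝ) ^ κ) →
            ∀ D : Diagram (Ribbon.Pt n), Orients D (twisted arcs n) → IsKnotoid D →
              ∀ s : ℕ, (s : ℝ) ≤ (N : ℝ) ^ σ → ¬ FSpanLE s D}.ncard : ℝ) ≤ (N : ℝ) ^ k / Real.log N ^ U) ∧
    (LM Nat.totient ∧ LM (fun m => ∑ d ∈ m.divisors, d)) := by
  refine ⟨fun k arcs hN σ κ hσ hκ h1 f hf a ha U => ?_, lm_totient, lm_sigma⟩
  have hk := pos_of_not_nugatory arcs hN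
  have hk1 : (1 : ℝ) ≤ k := by exact_mod_cast hk
  obtain ⟨N₀, hN₀⟩ := Pool.Agent.V7H10.TB.avoid_boxes_all hf a ha (δ := 1 - σ) hκ (by linarith) (by linarith)
    (3 ^ k * (8 * k + 5) * 3 ^ (k - 1)) U
  refine ⟨max N₀ 1, fun N hNN => ?_⟩
  have hN1 : 1 ≤ N := (le_max_right _ _).trans hNN
  have h2 := hN₀ N ((le_max_left _ _).trans hNN)
    {w : Fin k → ℕ | ∃ n : Fin k → ℤ, (∀ e, (n e).natAbs = w e) ∧ Pool.Agent.V7H10.KN.Bad arcs ((N : ℝ) ^ σ) n}
    (fun X hX => Pool.Agent.V7H10.KN.count_abs hk arcs hN hσ X (hN1.trans hX)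
      (Real.rpow_le_rpow (Nat.cast_nonneg _) (by exact_mod_cast hX) hσ))
  refine le_trans ?_ h2
  apply Nat.cast_le.2
  apply Set.ncard_le_ncard
  · rintro m ⟨h3, h4⟩
    refine ⟨h3, ?_⟩
    push Not at h4
    obtain ⟨n, h5, D, h6, h7, s, h8, h9⟩ := h4
    exact ⟨fun e => (n e).natAbs, ⟨n, fun _ => rfl, s, D, h8, h6, h7, h9⟩, h5⟩
  · apply (Fintype.piFinset fun _ : Fin k => Finset.Icc 1 N).finite_toSet.subset
    intro m hm
    rw [Finset.mem_coe, Fintype.mem_piFinset]
    exact fun i => Finset.mem_Icc.2 (hm.1 i)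

end Pool.Agent.Results.MP_79b4ff_gt.MultiplicativeTwistsH10
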