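import Pool.Agent.V7H10.KN
import Pool.Agent.R482.ST.Vec

/-!
# The span of the bracket polynomial of knotoids along radial starshaped sequences of twist vectors

Let `arcs` be a template of a knotoid diagram with `k` boxes, not all nugatory, and `K(n)`, `n ∈ ℤ^k`, the diagram with
`|n e|` crossings in the box `e`. Let `r_j = f_j(‖u‖)` be one of the sequences `v_j ‖u‖`, `‖u‖ ^ (v_j)`, or the orbit of
`‖u‖` under a map `g` with `g(x) / x` nondecreasing (starshaped functions). We show that for all `u ∈ ℝ ^ k` outside a set of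
Hausdorff dimension at most `(k - 1 + σ + τ) / (1 - θ)`, for all large `j` and ALL integral vectors `n` within `c r_j ^ θ` of
the point `(r_j / ‖u‖) u`, the span of the normalised bracket polynomial of `K(n)` is larger than `4 r_j ^ σ - 4`; here `τ` is the
exponent of convergence of the sequence, which is `0` for the exponential ones, and `σ < 1`. For `u` on one of finitely many
families of hyperplanes the span may be bounded.

The input is the starting theorem `KnotoidTwist`, the tool is `Pool.Agent.R482.ST` (helper482). Definitions: see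
`KnotoidTwist`.
-/

set_option autoImplicit false

namespace Pool.Agent.Results.MP_79b4ff_gt.StarshapedTwistsH10

open Pool.Agent.H891R2.Jones Pool.Agent.H891R2.MT Pool.Agent.H832R3.TW
open Pool.Agent.R482.ST (Starshaped Conv vec_windows_nat ex_mul ex_pow ex_orbit)
open MeasureTheory

/-- **Twist vectors near radial starshaped sequences.** Let `arcs` be a template with `k` boxes, not all nugatory, and
`0 ≤ σ < 1`. For all starshaped sequences `f` on `(a, ∞)` with exponent of convergence at most `τ` and all `θ < 1` there is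
a set `E` of Hausdorff dimension at most `(k - 1 + σ + τ) / (1 - θ)` such that for all `u ∈ ℝ ^ k` outside `E` with
`‖u‖ > a` and all `c`, for all large `j`: for ALL integral vectors `n` within `c f_j(‖u‖) ^ θ` of `(f_j(‖u‖) / ‖u‖) u` the
normalised bracket polynomial of every knotoid diagram on the twisted arcs of `n` is not supported in an interval of length
`4 s`, for any `s ≤ f_j(‖u‖) ^ σ`. -/
theorem result :
    (∀ (k : ℕ) (arcs : List (Corner k × Corner k)), ¬ Nugatory arcs → ∀ σ : ℝ, 0 ≤ σ → σ < 1 →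
      ∀ (f : ℕ → ℝ → ℝ) (a τ θ : ℝ), Starshaped a f → 0 ≤ τ → Conv a f τ → θ < 1 →
        ∃ E : Set (Fin k → ℝ), dimH E ≤ ENNReal.ofReal (((k : ℝ) - 1 + σ + τ) / (1 - θ)) ∧
          ∀ u : Fin k → ℝ, a < ‖u‖ → u ∉ E → ∀ c : ℝ, ∃ j₀ : ℕ, ∀ j : ℕ, j₀ ≤ j → ∀ n : Fin k → ℤ,
            (∀ e, |(n e : ℝ) - f j ‖u‖ / ‖u‖ * u e| ≤ c * (f j ‖u‖) ^ θ) →
              ∀ D : Diagram (Ribbon.Pt n), Orients D (twisted arcs n) → IsKnotoid D →
                ∀ s : ℕ, (s : ℝ) ≤ (f j ‖u‖) ^ σ → ¬ FSpanLE s D) ∧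
    -- examples of starshaped sequences: multiples, powers, orbits
    (∀ (v : ℕ → ℝ) (τ : ℝ), (∀ n, 0 < v n) → (∀ t : ℝ, τ < t → Summable (fun n : ℕ => (v n) ^ (-t))) →
      Starshaped 0 (fun n x => v n * x) ∧ Conv 0 (fun n x => v n * x) τ) ∧
    (∀ v : ℕ → ℝ, (∀ n, 1 ≤ v n) → (∀ t : ℝ, 0 < t → Summable fun n : ℕ => Real.exp (-(t * v n))) →
      Starshaped 1 (fun n x => x ^ (v n)) ∧ Conv 1 (fun n x => x ^ (v n)) 0) ∧
    (∀ (a : ℝ) (g : ℝ → ℝ), 0 ≤ a → (∀ x y : ℝ, a < x → x ≤ y → g x / x ≤ g y / y) → (∀ x : ℝ, a < x → x < g x) →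
      Starshaped a (fun n x => g^[n] x) ∧ Conv a (fun n x => g^[n] x) 0) := by
  refine ⟨?_, ex_mul, ex_pow, ex_orbit⟩
  intro k arcs hN σ hσ hσ1 f a τ θ hf hτ hv hθ
  have hk := pos_of_not_nugatory arcs hN
  have hk1 : (1 : ℝ) ≤ k := by exact_mod_cast hk
  -- a positive exponent
  rcases hσ.lt_or_eq with hσ0 | hσ0
  · obtain ⟨E, hE, h⟩ := vec_windows_nat (ι := Fin k) (fun n X => 0 ≤ X ∧ Pool.Agent.V7H10.KN.Bad arcs (X ^ σ) n)
      (fun n X Y hXY hX => ⟨hX.1.trans hXY, Pool.Agent.V7H10.KN.bad_mono (Real.rpow_le_rpow hX.1 hXY hσ) hX.2⟩)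
      (s := (k : ℝ) - 1 + σ) (by linarith) (by
        refine ⟨3 ^ k * (8 * k + 5) * 3 ^ (k - 1), fun X hX => ?_⟩
        refine le_trans ?_ ((Pool.Agent.V7H10.KN.count hk arcs hN hσ X hX).trans (le_of_eq (by congr 2; ring)))
        apply Nat.cast_le.2
        apply Set.ncard_le_ncard
        · rintro n ⟨h1, h2⟩
          exact ⟨h1, h2.2⟩
        · exact (Pool.Agent.V7H10.KN.finite_box k X).subset fun n hn => hn.1) f a τ θ hf hτ hv hθ
    refine ⟨E, hE, fun u hu huE c => ?_⟩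
    obtain ⟨j₀, hj₀⟩ := h u hu huE c
    refine ⟨j₀, fun j hj n hn D hD hK s hs hF => hj₀ j hj n hn ⟨?_, s, D, hs, hD, hK, hF⟩⟩
    exact (hf.2 j ‖u‖ ‖u‖ hu le_rfl).1.le
  · -- `σ = 0`: a countable union over small positive exponents would do; we use the counts for bounded spans
    subst hσ0
    have hcount : ∀ ε : ℝ, 0 < ε → ∃ C : ℝ, ∀ H : ℕ, 1 ≤ H →
        ((({z : Fin k → ℤ | (∀ i, |z i| ≤ (H : ℤ)) ∧ Pool.Agent.V7H10.KN.Bad arcs 1 z}.ncard : ℕ)) : ℝ) ≤
          C * (H : ℝ) ^ (((k : ℝ) - 1) + ε) := by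
      intro ε hε
      refine ⟨3 ^ k * (8 * k + 5) * 3 ^ (k - 1), fun H hH => ?_⟩
      have hH1 : (1 : ℝ) ≤ H := by exact_mod_cast hH
      have h1 := Pool.Agent.V7H10.KN.count hk arcs hN (le_refl (0 : ℝ)) H hH
      rw [Real.rpow_zero] at h1
      refine h1.trans ?_
      apply mul_le_mul_of_nonneg_left _ (by positivity)
      exact Real.rpow_le_rpow_of_exponent_le hH1 (by linarith)
    obtain ⟨E, hE, h⟩ := Pool.Agent.R482.ST.vec_prop (ι := Fin k) (fun n _ => Pool.Agent.V7H10.KN.Bad arcs 1 n)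
      (fun n X Y _ hX => hX) (s := (k : ℝ) - 1) (by linarith) hcount f a τ θ hf hτ hv hθ
    refine ⟨E, ?_, fun u hu huE c => ?_⟩
    · rw [add_zero]
      exact hE
    · obtain ⟨j₀, hj₀⟩ := h u hu huE c
      refine ⟨j₀, fun j hj n hn D hD hK s hs hF => hj₀ j hj n hn ⟨s, D, ?_, hD, hK, hF⟩⟩
      rw [Real.rpow_zero] at hs
      exact hs

end Pool.Agent.Results.MP_79b4ff_gt.StarshapedTwistsH10
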