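import Pool.Agent.V7H10.KN
import Pool.Agent.V7H10.SL
import Pool.Agent.N760.IT.E

/-!
# The span of the bracket polynomial of knotoids with a twist number near the orbits of Euler's function

Let `arcs` be a template of a knotoid diagram with `r + 1` boxes, not all nugatory, and `K(n)`, `n ∈ ℤ^(r + 1)`, the diagram
with `|n e|` crossings in the box `e`. We show that for all large `N`, for all values in `[1, A N]` of the numbers of
crossings of the boxes `1, …, r` outside a set with a power saving, for all but `η N` of the `m ≤ N`, if the number of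
crossings in the box `0` is ANY integer of `[N ^ (1 - κ), A N]` near `G(f(φ_j(m)))` for some `j ≤ K`, where `φ_j` is the
`j`-fold iterate of Euler's function, `f` is multiplicative and `G` is increasing of linear growth, then the span of the
normalised bracket polynomial of `K(n)` is larger than `4 N ^ σ - 4`, `σ < 1`, for all the signs of the twists.

The input is the starting theorem `KnotoidTwist`, the tool is `Pool.Agent.N760.IT` (helper760). Definitions: see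
`KnotoidTwist`.
-/

set_option autoImplicit false

namespace Pool.Agent.Results.MP_79b4ff_gt.TotientOrbitTwistsH10

open Pool.Agent.H891R2.Jones Pool.Agent.H891R2.MT Pool.Agent.H832R3.TW
open Finset
open Pool.Agent.N733.TG (LM Expanding)
open Pool.Agent.N760.IT (orb orbit_unif)
open Pool.Agent.V7H10.SL (Slice slice)

/-- **A twist number near the orbits of Euler's function.** Let `arcs` be a template with `r + 1` boxes, not all nugatory,
`0 ≤ σ < 1` and `κ = (1 - σ) / 8`. For all `f` with `LM`, all `G` with steps at least a positive constant and of linear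
growth, all `A`, `K` and `η > 0`, for all large `N` there is a set `X` of at most `N ^ (r - κ)` vectors such that for all
`w ∈ [1, A N] ^ r` outside `X`, for all but `η N` of the `m ≤ N`, for all `j ≤ K` and ALL integral vectors `n` with
`N ^ (1 - κ) ≤ |n 0| ≤ A N`, `||n 0| - G(f(φ_j m))| ≤ f(φ_j m) ^ κ` and `|n i| = w i` for `i = 1, …, r`: the normalised
bracket polynomial of every knotoid diagram on the twisted arcs of `n` is not supported in an interval of length `4 s`, for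
any `s ≤ N ^ σ`. -/
theorem result (r : ℕ) (arcs : List (Corner (r + 1) × Corner (r + 1))) (hN : ¬ Nugatory arcs) (σ κ : ℝ) (hσ : 0 ≤ σ)
    (hσ1 : σ < 1) (hκ : κ = (1 - σ) / 8) (f : ℕ → ℕ) (hf : LM f) (G : ℕ → ℝ) (hG : Expanding G 1) (A K : ℕ) (η : ℝ)
    (hη : 0 < η) :
    ∃ N₀ : ℕ, ∀ N : ℕ, N₀ ≤ N → ∃ X : Finset (Fin r → ℕ), (X.card : ℝ) ≤ (N : ℝ) ^ ((r : ℝ) - κ) ∧
      ∀ w : Fin r → ℕ, (∀ i, 1 ≤ w i ∧ w i ≤ A * N) → w ∉ X →
        ({m : ℕ | 1 ≤ m ∧ m ≤ N ∧ ¬ ∀ j ≤ K, ∀ n : Fin (r + 1) → ℤ, (N : ℝ) ^ (1 - κ) ≤ ((n 0).natAbs : ℝ) →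
          (n 0).natAbs ≤ A * N → |((n 0).natAbs : ℝ) - G (orb f j m)| ≤ (orb f j m : ℝ) ^ κ →
          (∀ i : Fin r, (n i.succ).natAbs = w i) →
            ∀ D : Diagram (Ribbon.Pt n), Orients D (twisted arcs n) → IsKnotoid D →
              ∀ s : ℕ, (s : ℝ) ≤ (N : ℝ) ^ σ → ¬ FSpanLE s D}.ncard : ℝ) ≤ η * N := by
  classical
  obtain ⟨C₁, hC₁⟩ : ∃ C₁ : ℝ, C₁ = 3 ^ (r + 1) * (8 * ((r + 1 : ℕ) : ℝ) + 5) * 3 ^ (r + 1 - 1) := ⟨_, rfl⟩
  have hC0 : 0 ≤ C₁ := by rw [hC₁]; positivity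
  obtain ⟨N₁, hN₁⟩ := slice A r (δ := 1 - σ) (by linarith) (by linarith) (C₁ * ((A : ℝ) + 1) ^ (r + 1))
  obtain ⟨N₂, hN₂⟩ := orbit_unif (T := ℕ) hf hG (s := 1 - (1 - σ) / 4) (κ := (1 - σ) / 8) (by linarith) (by linarith)
    (by linarith) 1 K η hη
  refine ⟨max (max N₁ N₂) 1, fun N hNN => ?_⟩
  have hN1 : 1 ≤ N := (le_max_right _ _).trans hNN
  have hN1' : (1 : ℝ) ≤ N := by exact_mod_cast hN1
  have hN0 : (0 : ℝ) < N := by linarith
  obtain ⟨Bad, hBad⟩ : ∃ Bad : (Fin (r + 1) → ℕ) → Prop, Bad = fun w => ∃ n : Fin (r + 1) → ℤ,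
      (∀ e, (n e).natAbs = w e) ∧ Pool.Agent.V7H10.KN.Bad arcs ((N : ℝ) ^ σ) n := ⟨_, rfl⟩
  obtain ⟨X, hX, h⟩ := hN₁ N (((le_max_left _ _).trans (le_max_left _ _)).trans hNN) Bad (by
    have hT : N ≤ (A + 1) * N := Nat.le_mul_of_pos_left _ (Nat.succ_pos _)
    obtain ⟨hfin, h1⟩ := Pool.Agent.V7H10.KN.count_abs (Nat.succ_pos r) arcs hN hσ ((A + 1) * N) (hN1.trans hT)
      (z := (N : ℝ) ^ σ) (Real.rpow_le_rpow hN0.le (by exact_mod_cast hT) hσ)
    have h2 : (((Fintype.piFinset fun _ : Fin (r + 1) => Icc 1 (A * N)).filter Bad : Finset (Fin (r + 1) → ℕ)) :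
        Set (Fin (r + 1) → ℕ)) ⊆
        {w : Fin (r + 1) → ℕ | w ∈ {w : Fin (r + 1) → ℕ | ∃ n : Fin (r + 1) → ℤ, (∀ e, (n e).natAbs = w e) ∧
          Pool.Agent.V7H10.KN.Bad arcs ((N : ℝ) ^ σ) n} ∧ ∀ i, w i ≤ (A + 1) * N} := by
      intro w hw
      rw [mem_coe, mem_filter, Fintype.mem_piFinset, hBad] at hw
      exact ⟨hw.2, fun i => (mem_Icc.1 (hw.1 i)).2.trans (Nat.mul_le_mul_right _ (Nat.le_succ _))⟩
    have h3 := Set.ncard_le_ncard h2 hfin
    rw [Set.ncard_coe_finset] at h3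
    refine (Nat.cast_le.2 h3).trans (h1.trans ?_)
    rw [← hC₁]
    calc C₁ * (((A + 1) * N : ℕ) : ℝ) ^ (((r + 1 : ℕ) : ℝ) - (1 - σ))
        = C₁ * (((A : ℝ) + 1) ^ (((r + 1 : ℕ) : ℝ) - (1 - σ)) * (N : ℝ) ^ (((r + 1 : ℕ) : ℝ) - (1 - σ))) := by
          push_cast
          rw [Real.mul_rpow (by positivity) hN0.le]
      _ ≤ C₁ * (((A : ℝ) + 1) ^ (r + 1) * (N : ℝ) ^ (((r + 1 : ℕ) : ℝ) - (1 - σ))) := by
          apply mul_le_mul_of_nonneg_left _ hC0
          apply mul_le_mul_of_nonneg_right _ (by positivity)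
          rw [← Real.rpow_natCast]
          exact Real.rpow_le_rpow_of_exponent_le (by linarith [(Nat.cast_nonneg A : (0 : ℝ) ≤ A)]) (by linarith)
      _ = _ := by ring)
  refine ⟨X, by rw [hκ]; exact hX, fun w hw hwX => ?_⟩
  have h1 := hN₂ (Slice A ((1 - σ) / 8) Bad N w) (fun t : ℕ => (t : ℝ)) (h w hw hwX) N
    (((le_max_right _ _).trans (le_max_left _ _)).trans hNN)
  refine le_trans ?_ h1
  apply Nat.cast_le.2
  apply Set.ncard_le_ncard
  · rintro m ⟨h2, h3, h4⟩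
    refine ⟨h2, h3, ?_⟩
    push Not at h4
    obtain ⟨j, hj, n, hn1, hn2, hn3, hn4, D, h6, h7, s, h8, h9⟩ := h4
    rw [hκ] at hn1 hn3
    refine ⟨j, hj, (n 0).natAbs, ⟨hn1, hn2, ?_⟩, hn3⟩
    rw [hBad]
    refine ⟨n, fun e => ?_, s, D, h8, h6, h7, h9⟩
    refine Fin.cases ?_ (fun i => ?_) e
    · rw [Fin.cons_zero]
    · rw [Fin.cons_succ]
      exact hn4 i
  · apply (Set.finite_Icc 1 N).subset
    rintro m ⟨h2, h3, _⟩
    exact ⟨h2, h3⟩

end Pool.Agent.Results.MP_79b4ff_gt.TotientOrbitTwistsH10
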